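import Pool.Agent.H960R3.DL3

/-!
# Discretely Lindelöf spaces with arbitrarily large weak Lindelöf number

For every infinite cardinal `μ` there is a `T₁` space in which the closure of the union of any `μ`
discrete subspaces is Lindelöf, but which has an open cover such that no subfamily of cardinality at
most `μ` has a dense union.
-/

set_option autoImplicit false

open Set Topology Cardinal Filter

namespace Pool.Agent.Results.MP_8c175f_gt.LargeWeakLindelofNumber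

open Pool.Agent.H960R3.DL

/-- Well-ordered sets in which the sets of cardinality at most `μ` are bounded. -/
theorem exists_L' (μ : Cardinal.{0}) :
    ∃ (L : ℕ → Type) (_ : ∀ n, LinearOrder (L n)) (_ : ∀ n, WellFoundedLT (L n)),
      Big L ∧ ∀ (n : ℕ) (s : Set (L n)), #s ≤ μ → ∃ b, ∀ a ∈ s, a < b := by
  let κ : ℕ → Cardinal.{0} :=
    fun n => Nat.rec (Order.succ (max μ 𝔠)) (fun _ c => Order.succ c) n
  have h0 : κ 0 = Order.succ (max μ 𝔠) := rfl
  have h1 : ∀ n, κ (n + 1) = Order.succ (κ n) := fun n => rfl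
  have hlt : StrictMono κ := strictMono_nat_of_lt_succ fun n => by
    rw [h1]
    exact Order.lt_succ _
  have hm : ∀ n, max μ 𝔠 < κ n := fun n =>
    (Order.lt_succ (max μ 𝔠)).trans_le (h0 ▸ hlt.monotone (Nat.zero_le n))
  have hmax : ℵ₀ ≤ max μ 𝔠 := aleph0_le_continuum.trans (le_max_right _ _)
  have hreg : ∀ n, (κ n).IsRegular := by
    intro n
    cases n with
    | zero => exact isRegular_succ hmax
    | succ n => exact isRegular_succ (hmax.trans (hm n).le)
  have hbd : ∀ (n : ℕ) (s : Set (κ n).ord.ToType), #s < κ n → ∃ b, ∀ a ∈ s, a < b := by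
    intro n s hs'
    have hcof : ¬ IsCofinal s := by
      intro h
      have h2 := Order.cof_le h
      rw [Ordinal.cof_toType, (hreg n).cof_ord] at h2
      exact absurd h2 (not_le.2 hs')
    rw [IsCofinal] at hcof
    push Not at hcof
    obtain ⟨b, hb⟩ := hcof
    exact ⟨b, fun a ha => hb a ha⟩
  refine ⟨fun n => (κ n).ord.ToType, fun n => inferInstance, fun n => inferInstance, ?_, ?_⟩
  · intro n s hs
    refine hbd n s ?_
    rcases hs with hs | ⟨m, hmn, hs⟩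
    · exact hs.trans_lt ((le_max_right _ _).trans_lt (hm n))
    · refine hs.trans_lt ?_
      rw [mk_toType, card_ord]
      exact hlt hmn
  · intro n s hs
    exact hbd n s (hs.trans_lt ((le_max_left _ _).trans_lt (hm n)))

/-- For every infinite cardinal `μ` there is a `T₁` space `X` with the following properties.
The space `X` is discretely Lindelöf; more generally the closure of the union of any family of at
most `μ` discrete subspaces is Lindelöf, and so is the closure of every set of cardinality at most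
`μ`. There is an open cover of `X` such that no subfamily of cardinality at most `μ` has a dense
union (for `μ = ℵ₀` this says that `X` is not weakly Lindelöf); so no union of at most `μ` Lindelöf
subspaces is dense. -/
theorem result (μ : Cardinal.{0}) (hμ : ℵ₀ ≤ μ) :
    ∃ (X : Type) (_ : TopologicalSpace X), T1Space X ∧
      (∀ D : Set X, DiscreteTopology D → LindelofSpace (closure D)) ∧
      (∀ 𝒟 : Set (Set X), #𝒟 ≤ μ → (∀ D ∈ 𝒟, DiscreteTopology D) →
        LindelofSpace (closure (⋃₀ 𝒟))) ∧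
      (∀ A : Set X, #A ≤ μ → LindelofSpace (closure A)) ∧
      (∃ 𝒰 : Set (Set X), (∀ U ∈ 𝒰, IsOpen U) ∧ ⋃₀ 𝒰 = Set.univ ∧
        ∀ 𝒱 ⊆ 𝒰, #𝒱 ≤ μ → ¬ Dense (⋃₀ 𝒱)) ∧
      (∀ 𝒦 : Set (Set X), #𝒦 ≤ μ → (∀ K ∈ 𝒦, LindelofSpace K) → ¬ Dense (⋃₀ 𝒦)) := by
  classical
  obtain ⟨L, i1, i2, hL, hLμ⟩ := exists_L' μ
  obtain ⟨δ, G, hG, hU⟩ := exists_G hL
  have hfam : ∀ 𝒟 : Set (Set (Pt δ G)), #𝒟 ≤ μ → (∀ D ∈ 𝒟, DiscreteTopology D) →
      LindelofSpace (closure (⋃₀ 𝒟)) := by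
    intro 𝒟 h𝒟 hd
    have h1 : ∀ D : 𝒟, ∃ ξ < δ, D.1 ⊆ {p : Pt δ G | Lo G ξ p.1.1} := fun D =>
      bounded_of_discrete hL hG hU D.1 (hd D.1 D.2)
    choose ρ hρ hDρ using h1
    have hSm : Sm L 𝒟 := by
      intro f
      have h2 : ∀ n, ∃ b, ∀ a ∈ range (fun t => f t n), a < b := fun n =>
        hLμ n _ (mk_range_le.trans h𝒟)
      choose h hh using h2
      exact ⟨h, fun t => Eventually.of_forall fun n => hh n _ ⟨t, rfl⟩⟩
    obtain ⟨ρ', hρ', hle⟩ := small_bdd hG hU hSm ρ hρ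
    have hsub : ⋃₀ 𝒟 ⊆ {p : Pt δ G | Lo G ρ' p.1.1} := by
      rintro p ⟨D, hD, hp⟩
      exact Lo.mono hG (hle ⟨D, hD⟩) hρ' (hDρ ⟨D, hD⟩ hp)
    rw [← isLindelof_iff_lindelofSpace]
    exact (isLindelof_Lo hG hρ').of_isClosed_subset isClosed_closure
      (closure_minimal hsub (isClosed_Lo hρ'))
  have hone : (1 : Cardinal.{0}) ≤ μ := one_lt_aleph0.le.trans hμ
  have hcov : ∃ 𝒰 : Set (Set (Pt δ G)), (∀ U ∈ 𝒰, IsOpen U) ∧ ⋃₀ 𝒰 = Set.univ ∧
      ∀ 𝒱 ⊆ 𝒰, #𝒱 ≤ μ → ¬ Dense (⋃₀ 𝒱) := by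
    let U : (Σ n, L n) → Set (Pt δ G) := fun a => {p | p.1.1 a.1 < (a.2 : WithTop (L a.1))}
    refine ⟨range U, ?_, ?_, ?_⟩
    · rintro _ ⟨a, rfl⟩
      exact isOpen_U a.1 a.2
    · refine eq_univ_of_forall fun p => ?_
      obtain ⟨ξ, hξ, hlo⟩ := p.1.2
      obtain ⟨n, hn⟩ := hlo.exists
      obtain ⟨b, hb⟩ := hL n {G ξ n} (Or.inl (by
        rw [mk_singleton]
        exact one_lt_aleph0.le.trans aleph0_le_continuum))
      refine ⟨U ⟨n, b⟩, ⟨_, rfl⟩, ?_⟩
      exact hn.trans_lt (WithTop.coe_lt_coe.2 (hb _ rfl))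
    · intro V hV hVc hdense
      have hV4 : ∀ v : V, ∃ i, U i = v.1 := fun v => hV v.2
      choose c hc using hV4
      have h1 : ∀ n, ∃ b : L n, ∀ a : L n, (⟨n, a⟩ : Σ n, L n) ∈ range c → a < b := by
        intro n
        have hcount : #((Sigma.mk n) ⁻¹' (range c) : Set (L n)) ≤ μ :=
          (mk_preimage_of_injective _ _ sigma_mk_injective).trans (mk_range_le.trans hVc)
        exact hLμ n _ hcount
      choose h hh using h1
      obtain ⟨ξ, hξ, hf⟩ := hU h
      let A : Set ℕ := {n | h n ≤ G ξ n}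
      have hA : A.Infinite := Nat.frequently_atTop_iff_infinite.1 hf
      let x : {x : Vec L // ∃ ξ < δ, Lo G ξ x} := ⟨xA G ξ A, ξ, hξ, lo_xA G ξ hA⟩
      obtain ⟨q, hq1, hq2⟩ := hdense.inter_open_nonempty _ (isOpen_up x)
        ⟨(x, true), rfl, fun n => le_rfl⟩
      obtain ⟨v', hv, hqv⟩ := hq2
      obtain ⟨v, rfl⟩ : ∃ v : V, v.1 = v' := ⟨⟨v', hv⟩, rfl⟩
      have h2 : U (c v) = v := hc v
      rw [← h2] at hqv
      have h3 : q.1.1 (c v).1 < ((c v).2 : WithTop (L (c v).1)) := hqv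
      have h4 : (c v).2 < h (c v).1 := hh _ _ ⟨v, rfl⟩
      have h5 : (h (c v).1 : WithTop (L (c v).1)) ≤ x.1 (c v).1 := by
        change (h (c v).1 : WithTop (L (c v).1)) ≤ xA G ξ A (c v).1
        by_cases hn : (c v).1 ∈ A
        · simp only [xA, hn, if_true]
          exact WithTop.coe_le_coe.2 hn
        · simp [xA, hn]
      exact absurd ((h5.trans (hq1.2 _)).trans_lt (h3.trans (WithTop.coe_lt_coe.2 h4)))
        (lt_irrefl _)
  refine ⟨Pt δ G, inferInstance, inferInstance, ?_, hfam, ?_, hcov, ?_⟩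
  · intro D hD
    have h := hfam {D} (by rw [mk_singleton]; exact hone) (by
      intro D' hD'
      rw [mem_singleton_iff] at hD'
      rw [hD']
      exact hD)
    rwa [sUnion_singleton] at h
  · intro A hA
    have h := hfam (range fun a : A => {a.1}) (mk_range_le.trans hA) (by
      rintro _ ⟨a, rfl⟩
      infer_instance)
    have e : ⋃₀ (range fun a : A => ({a.1} : Set (Pt δ G))) = A := by
      ext x
      simp
    rwa [e] at h
  · intro 𝒦 h𝒦 hK hdense
    obtain ⟨𝒰, hUo, hUc, hUd⟩ := hcov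
    have h1 : ∀ K : 𝒦, ∃ 𝒱 ⊆ 𝒰, 𝒱.Countable ∧ K.1 ⊆ ⋃₀ 𝒱 := by
      intro K
      have h2 : IsLindelof K.1 := isLindelof_iff_lindelofSpace.2 (hK K.1 K.2)
      obtain ⟨t, ht, hKt⟩ := h2.elim_countable_subcover (fun U : 𝒰 => U.1) (fun U => hUo U.1 U.2)
        (by
          intro x _
          have : x ∈ ⋃₀ 𝒰 := hUc ▸ mem_univ x
          obtain ⟨U, hU', hx⟩ := this
          exact mem_iUnion.2 ⟨⟨U, hU'⟩, hx⟩)
      refine ⟨Subtype.val '' t, ?_, ht.image _, ?_⟩
      · rintro _ ⟨U, _, rfl⟩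
        exact U.2
      · intro x hx
        obtain ⟨U, hUt, hxU⟩ := mem_iUnion₂.1 (hKt hx)
        exact ⟨U.1, ⟨U, hUt, rfl⟩, hxU⟩
    choose 𝒱 h𝒱 hc hs using h1
    refine hUd (⋃ K : 𝒦, 𝒱 K) (iUnion_subset h𝒱) ?_ ?_
    · refine (mk_iUnion_le _).trans ?_
      refine (mul_le_mul' h𝒦 (ciSup_le' fun K => (hc K).le_aleph0)).trans ?_
      exact mul_le_of_le hμ le_rfl hμ
    · refine hdense.mono ?_
      rintro x ⟨K, hKm, hx⟩
      obtain ⟨V, hV, hxV⟩ := hs ⟨K, hKm⟩ hx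
      exact ⟨V, mem_iUnion.2 ⟨⟨K, hKm⟩, hV⟩, hxV⟩

end Pool.Agent.Results.MP_8c175f_gt.LargeWeakLindelofNumber
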